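import Pool.Agent.Results.MP_0b62d6_lc.WeakExtDistrib

/-!
Weak `m`-distributivity implies the weak `m`-extension property (Matthes).
-/

set_option autoImplicit false

open Set Cardinal

universe u

namespace Pool.Agent.Y40.WE

open Pool.Agent.Results.MP_0b62d6_lc.WeakExtDistrib

/-- `z` is, for every `N` of the family, below the join of finitely many elements of `N`. -/
def Avoid {B : Type u} [BooleanAlgebra B] (𝒩 : Set (Set B)) (z : B) : Prop :=
  ∀ N ∈ 𝒩, ∃ Φ : Finset B, (Φ : Set B) ⊆ N ∧ z ≤ Φ.sup id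

/-- a family of at most `m` covers of the unit with at most `m` members each -/
def Fam {B : Type u} [BooleanAlgebra B] (m : Cardinal.{u}) (𝒩 : Set (Set B)) : Prop :=
  #𝒩 ≤ m ∧ ∀ N ∈ 𝒩, #N ≤ m ∧ IsLUB N ⊤

theorem exists_avoid {B : Type u} [BooleanAlgebra B] {m : Cardinal.{u}} (hm : ℵ₀ ≤ m)
    (hwd : WeaklyDistributive m B) (𝒩 : Set (Set B)) (h𝒩 : Fam m 𝒩) (c : B) (hc : c ≠ ⊥) :
    ∃ z : B, z ≠ ⊥ ∧ z ≤ c ∧ Avoid 𝒩 z := by
  classical
  have hS : #(⋃₀ 𝒩 : Set B) ≤ m := by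
    refine (mk_sUnion_le 𝒩).trans ?_
    refine (mul_le_mul' h𝒩.1 (ciSup_le' fun s : 𝒩 => (h𝒩.2 (s : Set B) s.2).1)).trans ?_
    exact (mul_eq_self hm).le
  let a : 𝒩 → (⋃₀ 𝒩 : Set B) → B := fun t s => if (s : B) ∈ (t : Set B) then (s : B) else ⊥
  have ha : ∀ t, IsLUB (range (a t)) ⊤ := by
    intro t
    refine ⟨fun _ _ => le_top, fun u hu => ?_⟩
    refine (h𝒩.2 t.1 t.2).2.2 ?_
    intro x hx
    have := hu ⟨⟨x, mem_sUnion.2 ⟨t.1, t.2, hx⟩⟩, rfl⟩
    simpa [a, hx] using this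
  have h1 := hwd 𝒩 (⋃₀ 𝒩 : Set B) h𝒩.1 hS a ha
  by_contra hcon
  push Not at hcon
  apply hc
  have h2 : (⊤ : B) ≤ cᶜ := by
    refine h1.2 ?_
    rintro x ⟨Φ, hΦ, hx⟩
    rw [le_compl_iff_disjoint_right, disjoint_iff]
    by_contra hne
    refine hcon (x ⊓ c) hne inf_le_right ?_
    intro N hN
    refine ⟨((Φ ⟨N, hN⟩).filter (fun s : (⋃₀ 𝒩 : Set B) => (s : B) ∈ N)).image Subtype.val, ?_, ?_⟩
    · intro y hy
      simp only [Finset.coe_image, Finset.coe_filter, mem_image] at hy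
      obtain ⟨s, hs, rfl⟩ := hy
      exact hs.2
    · refine (inf_le_left.trans (hx.1 ⟨⟨N, hN⟩, rfl⟩)).trans ?_
      refine Finset.sup_le ?_
      intro s hs
      by_cases hsN : (s : B) ∈ N
      · have e : a ⟨N, hN⟩ s = s := by simp [a, hsN]
        rw [e]
        refine Finset.le_sup (f := id) (b := (s : B)) ?_
        exact Finset.mem_image.2 ⟨s, Finset.mem_filter.2 ⟨hs, hsN⟩, rfl⟩
      · have e : a ⟨N, hN⟩ s = ⊥ := by simp [a, hsN]
        rw [e]
        exact bot_le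
  have h3 : cᶜ = ⊤ := top_le_iff.1 h2
  exact compl_eq_top.1 h3

section Ext

variable {A B : Type u} [BooleanAlgebra A] [BooleanAlgebra B] {A₀ : BooleanSubalgebra A}

/-- `a` is below every upper bound of `P` -/
def Cov (a : A) (P : Set A₀) : Prop := ∀ u : A, (∀ p ∈ P, (p : A) ≤ u) → a ≤ u

/-- the approximation relation -/
def Rel (m : Cardinal.{u}) (f : BoundedLatticeHom A₀ B) (a : A) (b : B) : Prop :=
  ∃ 𝒩 : Set (Set B), Fam m 𝒩 ∧ ∀ z, Avoid 𝒩 z →
    (∃ P : Set A₀, #P ≤ m ∧ Cov a P ∧ ∀ p ∈ P, z ⊓ f p ≤ b) ∧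
    (∃ Q : Set A₀, #Q ≤ m ∧ Cov aᶜ Q ∧ ∀ q ∈ Q, z ⊓ f q ≤ bᶜ)

variable {m : Cardinal.{u}} {f : BoundedLatticeHom A₀ B}

theorem rel_base (hm : ℵ₀ ≤ m) (x : A₀) : Rel m f (x : A) (f x) := by
  have h1 : ∀ y : A₀, #({y} : Set A₀) ≤ m := fun y => by
    rw [mk_singleton]; exact one_lt_aleph0.le.trans hm
  refine ⟨∅, ⟨by simp, by simp⟩, fun z _ => ⟨⟨{x}, h1 x, ?_, ?_⟩, ⟨{xᶜ}, h1 _, ?_, ?_⟩⟩⟩
  · intro u hu
    exact hu x rfl
  · rintro p rfl
    exact inf_le_right
  · intro u hu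
    exact hu xᶜ rfl
  · rintro p rfl
    rw [map_compl']
    exact inf_le_right

theorem rel_compl {a : A} {b : B} (h : Rel m f a b) : Rel m f aᶜ bᶜ := by
  obtain ⟨𝒩, h𝒩, h⟩ := h
  refine ⟨𝒩, h𝒩, fun z hz => ?_⟩
  obtain ⟨h1, h2⟩ := h z hz
  refine ⟨h2, ?_⟩
  rw [compl_compl, compl_compl]
  exact h1

theorem rel_sup (hm : ℵ₀ ≤ m) {T : Type u} (hT : #T ≤ m) (a : T → A) (b : T → B)
    (hab : ∀ t, Rel m f (a t) (b t)) (a' : A) (ha' : IsLUB (range a) a') (b' : B)
    (hb' : IsLUB (range b) b') : Rel m f a' b' := by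
  classical
  choose 𝒩 h𝒩 h using hab
  refine ⟨(⋃ t, 𝒩 t) ∪ {insert b'ᶜ (range b)}, ⟨?_, ?_⟩, ?_⟩
  · refine (mk_union_le _ _).trans ?_
    refine add_le_of_le hm ?_ (by rw [mk_singleton]; exact one_lt_aleph0.le.trans hm)
    refine (mk_iUnion_le _).trans ?_
    refine (mul_le_mul' hT (ciSup_le' fun t => (h𝒩 t).1)).trans ?_
    exact (mul_eq_self hm).le
  · rintro N (hN | hN)
    · obtain ⟨t, ht⟩ := mem_iUnion.1 hN
      exact (h𝒩 t).2 N ht
    · rw [mem_singleton_iff.1 hN]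
      refine ⟨?_, fun _ _ => le_top, fun u hu => ?_⟩
      · refine mk_insert_le.trans ?_
        exact add_le_of_le hm (mk_range_le.trans hT) (one_lt_aleph0.le.trans hm)
      · have h1 : b'ᶜ ≤ u := hu (mem_insert _ _)
        have h2 : b' ≤ u := hb'.2 fun x hx => hu (mem_insert_of_mem _ hx)
        rw [← sup_compl_eq_top (x := b')]
        exact sup_le h2 h1
  · intro z hz
    have hzt : ∀ t, Avoid (𝒩 t) z := fun t N hN => hz N (Or.inl (mem_iUnion.2 ⟨t, hN⟩))
    have hP := fun t => (h t z (hzt t)).1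
    have hQ := fun t => (h t z (hzt t)).2
    choose P hPm hPc hPf using hP
    choose Q hQm hQc hQf using hQ
    constructor
    · refine ⟨⋃ t, P t, ?_, ?_, ?_⟩
      · refine (mk_iUnion_le _).trans ?_
        refine (mul_le_mul' hT (ciSup_le' fun t => hPm t)).trans ?_
        exact (mul_eq_self hm).le
      · intro u hu
        refine ha'.2 ?_
        rintro _ ⟨t, rfl⟩
        exact hPc t u fun p hp => hu p (mem_iUnion.2 ⟨t, hp⟩)
      · intro p hp
        obtain ⟨t, ht⟩ := mem_iUnion.1 hp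
        exact (hPf t p ht).trans (hb'.1 ⟨t, rfl⟩)
    · -- finitely many indices suffice
      obtain ⟨Φ, hΦ, hzΦ⟩ := hz _ (Or.inr rfl)
      have hF : ∃ F : Finset T, Φ.sup id ≤ b'ᶜ ⊔ F.sup b := by
        clear hzΦ
        induction Φ using Finset.induction_on with
        | empty => exact ⟨∅, by simp⟩
        | insert x Φ _ ih =>
          obtain ⟨F, hF⟩ := ih fun y hy => hΦ (by
            rw [Finset.coe_insert]; exact mem_insert_of_mem _ hy)
          have hx : x ∈ insert b'ᶜ (range b) := hΦ (by simp)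
          rcases hx with rfl | ⟨t, rfl⟩
          · refine ⟨F, ?_⟩
            rw [Finset.sup_insert]
            exact sup_le le_sup_left hF
          · refine ⟨insert t F, ?_⟩
            rw [Finset.sup_insert, Finset.sup_insert]
            refine sup_le (le_sup_of_le_right le_sup_left) (hF.trans ?_)
            exact sup_le_sup le_rfl le_sup_right
      obtain ⟨F, hF⟩ := hF
      have hzF : z ≤ b'ᶜ ⊔ F.sup b := hzΦ.trans hF
      have key : ∀ F : Finset T, ∃ R : Set A₀, #R ≤ m ∧ Cov a'ᶜ R ∧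
          ∀ r ∈ R, z ⊓ f r ≤ (F.sup b)ᶜ := by
        intro F
        induction F using Finset.induction_on with
        | empty =>
          refine ⟨{⊤}, by rw [mk_singleton]; exact one_lt_aleph0.le.trans hm, ?_, ?_⟩
          · intro u hu
            exact le_top.trans (hu ⊤ rfl)
          · intro r _
            simp
        | insert t F _ ih =>
          obtain ⟨R, hRm, hRc, hRf⟩ := ih
          refine ⟨(fun p : A₀ × A₀ => p.1 ⊓ p.2) '' (R ×ˢ Q t), ?_, ?_, ?_⟩
          · refine mk_image_le.trans ?_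
            rw [mk_setProd]
            exact (mul_le_mul' hRm (hQm t)).trans (mul_eq_self hm).le
          · intro u hu
            have h1 : ∀ r ∈ R, (r : A) ≤ u ⊔ a' := by
              intro r hr
              have h2 : (a t)ᶜ ≤ u ⊔ (r : A)ᶜ := by
                refine hQc t _ ?_
                intro q hq
                have h3 : ((r ⊓ q : A₀) : A) ≤ u := hu _ ⟨(r, q), ⟨hr, hq⟩, rfl⟩
                rw [BooleanSubalgebra.val_inf] at h3
                calc (q : A) = (q : A) ⊓ ((r : A) ⊔ (r : A)ᶜ) := by rw [sup_compl_eq_top, inf_top_eq]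
                  _ = ((r : A) ⊓ q) ⊔ ((q : A) ⊓ (r : A)ᶜ) := by rw [inf_sup_left, inf_comm (q : A) r]
                  _ ≤ u ⊔ (r : A)ᶜ := sup_le_sup h3 inf_le_right
              have h4 : a'ᶜ ≤ u ⊔ (r : A)ᶜ := (compl_le_compl (ha'.1 ⟨t, rfl⟩)).trans h2
              calc (r : A) = (r : A) ⊓ (a' ⊔ a'ᶜ) := by rw [sup_compl_eq_top, inf_top_eq]
                _ = ((r : A) ⊓ a') ⊔ ((r : A) ⊓ a'ᶜ) := inf_sup_left _ _ _
                _ ≤ a' ⊔ ((r : A) ⊓ (u ⊔ (r : A)ᶜ)) := sup_le_sup inf_le_right (inf_le_inf_left _ h4)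
                _ ≤ a' ⊔ u := by
                  refine sup_le_sup_left ?_ _
                  rw [inf_sup_left, inf_compl_eq_bot, sup_bot_eq]
                  exact inf_le_right
                _ = u ⊔ a' := sup_comm _ _
            have h5 : a'ᶜ ≤ u ⊔ a' := hRc _ h1
            calc a'ᶜ = a'ᶜ ⊓ (u ⊔ a') := (inf_eq_left.2 h5).symm
              _ = (a'ᶜ ⊓ u) ⊔ (a'ᶜ ⊓ a') := inf_sup_left _ _ _
              _ ≤ u := by rw [compl_inf_eq_bot, sup_bot_eq]; exact inf_le_right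
          · rintro _ ⟨⟨r, q⟩, ⟨hr, hq⟩, rfl⟩
            rw [Finset.sup_insert, compl_sup]
            refine le_inf ?_ ?_
            · refine le_trans ?_ (hQf t q hq)
              exact inf_le_inf_left _ (OrderHomClass.mono f inf_le_right)
            · refine le_trans ?_ (hRf r hr)
              exact inf_le_inf_left _ (OrderHomClass.mono f inf_le_left)
      obtain ⟨R, hRm, hRc, hRf⟩ := key F
      refine ⟨R, hRm, hRc, fun r hr => ?_⟩
      have h1 : z ⊓ f r ≤ (F.sup b)ᶜ ⊓ (b'ᶜ ⊔ F.sup b) :=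
        le_inf (hRf r hr) (inf_le_left.trans hzF)
      refine h1.trans ?_
      rw [inf_sup_left, compl_inf_eq_bot, sup_bot_eq]
      exact inf_le_right

theorem rel_unique (hm : ℵ₀ ≤ m) (hwd : WeaklyDistributive m B) (hf : CondA m A₀ f) {a : A}
    {b b' : B} (h : Rel m f a b) (h' : Rel m f a b') : b ≤ b' := by
  classical
  obtain ⟨𝒩, h𝒩, h⟩ := h
  obtain ⟨𝒩', h𝒩', h'⟩ := h'
  by_contra hne
  have hc : b ⊓ b'ᶜ ≠ ⊥ := by
    intro h0
    rw [← _root_.sdiff_eq, sdiff_eq_bot_iff] at h0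
    exact hne h0
  obtain ⟨z, hz0, hzc, hz⟩ := exists_avoid hm hwd (𝒩 ∪ 𝒩')
    ⟨(mk_union_le _ _).trans (add_le_of_le hm h𝒩.1 h𝒩'.1), by
      rintro N (hN | hN)
      · exact h𝒩.2 N hN
      · exact h𝒩'.2 N hN⟩ _ hc
  obtain ⟨Q, hQm, hQc, hQf⟩ := (h z fun N hN => hz N (Or.inl hN)).2
  obtain ⟨P, hPm, hPc, hPf⟩ := (h' z fun N hN => hz N (Or.inr hN)).1
  have hzb : z ≤ b := hzc.trans inf_le_left
  have hzb' : z ≤ b'ᶜ := hzc.trans inf_le_right
  have h1 : IsGLB ((fun x : A₀ => (x : A)) '' (compl '' (P ∪ Q))) ⊥ := by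
    refine ⟨fun _ _ => bot_le, ?_⟩
    intro w hw
    have h2 : ∀ x ∈ P ∪ Q, (x : A) ≤ wᶜ := by
      intro x hx
      have h3 : w ≤ ((xᶜ : A₀) : A) := hw ⟨xᶜ, ⟨x, hx, rfl⟩, rfl⟩
      rw [BooleanSubalgebra.val_compl] at h3
      exact le_compl_comm.1 h3
    have h4 : a ≤ wᶜ := hPc _ fun p hp => h2 p (Or.inl hp)
    have h5 : aᶜ ≤ wᶜ := hQc _ fun p hp => h2 p (Or.inr hp)
    have h6 : (⊤ : A) ≤ wᶜ := by
      rw [← sup_compl_eq_top (x := a)]
      exact sup_le h4 h5
    exact (compl_eq_top.1 (top_le_iff.1 h6)).le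
  have h7 := hf (compl '' (P ∪ Q)) (mk_image_le.trans ((mk_union_le _ _).trans
    (add_le_of_le hm hPm hQm))) h1
  apply hz0
  rw [← le_bot_iff]
  refine h7.2 ?_
  rintro _ ⟨_, ⟨x, hx, rfl⟩, rfl⟩
  rw [map_compl', le_compl_iff_disjoint_right, disjoint_iff, ← le_bot_iff]
  rcases hx with hx | hx
  · have := le_inf (hPf x hx) (inf_le_left.trans hzb')
    rwa [inf_compl_eq_bot] at this
  · have := le_inf (hQf x hx) (inf_le_left.trans hzb)
    rwa [compl_inf_eq_bot] at this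

end Ext

/-- **Matthes.** A weakly `m`-distributive Boolean `m`-algebra has the weak `m`-extension
property. -/
theorem matthes {m : Cardinal.{u}} (hm : ℵ₀ ≤ m) {B : Type u} [BooleanAlgebra B]
    (hB : IsMAlgebra m B) (hwd : WeaklyDistributive m B) : WeakExtension m B := by
  classical
  intro A _ hA A₀ hgen f hf
  -- joins of sets
  have hsup : ∀ (S : Set A) (a : A), #S ≤ m → IsLUB S a → ∀ β : A → B,
      (∀ x ∈ S, Rel m f x (β x)) → ∀ b, IsLUB (β '' S) b → Rel m f a b := by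
    intro S a hS ha β hβ b hb
    refine rel_sup hm (T := S) hS (fun x => (x : A)) (fun x => β x) (fun x => hβ x x.2) a ?_ b ?_
    · rwa [Subtype.range_coe]
    · have : range (fun x : S => β x) = β '' S := by
        ext y
        simp
      rwa [this]
  have hex : ∀ (S : Set A) (a : A), #S ≤ m → IsLUB S a → (∀ x ∈ S, ∃ b, Rel m f x b) →
      ∃ b, Rel m f a b := by
    intro S a hS ha hβ
    choose! β hβ using hβ
    obtain ⟨b, hb⟩ := (hB (β '' S) (mk_image_le.trans hS)).1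
    exact ⟨b, hsup S a hS ha β hβ b hb⟩
  have hpair : ∀ x y : A, #({x, y} : Set A) ≤ m := fun x y =>
    ((Set.toFinite _).lt_aleph0.le).trans hm
  let C : BooleanSubalgebra A :=
    { carrier := {a | ∃ b, Rel m f a b}
      supClosed' := by
        intro x hx y hy
        refine hex {x, y} (x ⊔ y) (hpair x y) isLUB_pair ?_
        rintro z (rfl | rfl)
        · exact hx
        · exact hy
      infClosed' := by
        rintro x ⟨b, hx⟩ y ⟨c, hy⟩
        have h1 : ∃ d, Rel m f (xᶜ ⊔ yᶜ) d := by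
          refine hex {xᶜ, yᶜ} (xᶜ ⊔ yᶜ) (hpair _ _) isLUB_pair ?_
          rintro z (rfl | rfl)
          · exact ⟨_, rel_compl hx⟩
          · exact ⟨_, rel_compl hy⟩
        obtain ⟨d, hd⟩ := h1
        have h2 := rel_compl hd
        rw [compl_sup, compl_compl, compl_compl] at h2
        exact ⟨_, h2⟩
      compl_mem' := by
        rintro x ⟨b, hx⟩
        exact ⟨_, rel_compl hx⟩
      bot_mem' := ⟨f ⊥, rel_base hm ⊥⟩ }
  have hall : ∀ a : A, ∃ b, Rel m f a b := by
    refine hgen C ?_ ?_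
    · intro x hx
      exact ⟨f ⟨x, hx⟩, rel_base hm ⟨x, hx⟩⟩
    · rintro S hSC hS a (ha | ha)
      · exact hex S a hS ha fun x hx => hSC hx
      · rw [isGLB_iff_compl] at ha
        obtain ⟨b, hb⟩ := hex (compl '' S) aᶜ (mk_image_le.trans hS) ha (by
          rintro _ ⟨x, hx, rfl⟩
          obtain ⟨b, hb⟩ := hSC hx
          exact ⟨_, rel_compl hb⟩)
        have := rel_compl hb
        rw [compl_compl] at this
        exact ⟨_, this⟩
  choose g hg using hall
  have huniq : ∀ {a b}, Rel m f a b → g a = b := fun {a b} h =>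
    le_antisymm (rel_unique hm hwd hf (hg a) h) (rel_unique hm hwd hf h (hg a))
  have hcompl : ∀ a, g aᶜ = (g a)ᶜ := fun a => huniq (rel_compl (hg a))
  have hjoin : ∀ (S : Set A) (a : A), #S ≤ m → IsLUB S a → IsLUB (g '' S) (g a) := by
    intro S a hS ha
    obtain ⟨b, hb⟩ := (hB (g '' S) (mk_image_le.trans hS)).1
    have h1 := hsup S a hS ha g (fun x _ => hg x) b hb
    rw [huniq h1]
    exact hb
  have hsup2 : ∀ x y, g (x ⊔ y) = g x ⊔ g y := by
    intro x y
    have h1 := hjoin {x, y} (x ⊔ y) (hpair x y) isLUB_pair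
    rw [image_pair] at h1
    exact h1.unique isLUB_pair
  let G : BoundedLatticeHom A B :=
    { toFun := g
      map_sup' := hsup2
      map_inf' := by
        intro x y
        have h1 : g (xᶜ ⊔ yᶜ)ᶜ = (g xᶜ ⊔ g yᶜ)ᶜ := by rw [hcompl, hsup2]
        rw [compl_sup, compl_compl, compl_compl, hcompl, hcompl, compl_sup, compl_compl,
          compl_compl] at h1
        exact h1
      map_top' := by
        have h1 := huniq (rel_base (f := f) hm (⊤ : A₀))
        rw [map_top] at h1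
        exact h1
      map_bot' := by
        have h1 := huniq (rel_base (f := f) hm (⊥ : A₀))
        rw [map_bot] at h1
        exact h1 }
  have hG : ∀ x, G x = g x := fun _ => rfl
  refine ⟨G, ?_, ?_⟩
  · intro S hS
    refine ⟨fun a ha => hjoin S a hS ha, fun a ha => ?_⟩
    rw [isGLB_iff_compl] at ha ⊢
    have h1 := hjoin _ _ (mk_image_le.trans hS) ha
    rw [hG, ← hcompl]
    have h2 : compl '' (G '' S) = g '' (compl '' S) := by
      rw [image_image, image_image]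
      refine image_congr fun x _ => ?_
      rw [hG, hcompl]
    rw [h2]
    exact h1
  · intro x
    exact huniq (rel_base hm x)

end Pool.Agent.Y40.WE
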